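import Pool.Agent.Q292.LC.Stm7

/-! Project LC (helper565), piece DVA. -/

set_option autoImplicit false

namespace Pool.Agent.Run7.h992.LC

open Finset Equiv Matrix Q292.LC

section gen

variable {V : Type} [Fintype V] [DecidableEq V] (g : Perm V)

theorem mem_cyc (x y : V) : y ∈ cyc g x ↔ g.SameCycle x y := by
  unfold cyc
  simp

theorem cyc_congr {x y : V} (h : g.SameCycle x y) : cyc g x = cyc g y := by
  ext z
  rw [mem_cyc, mem_cyc]
  exact ⟨fun k => h.symm.trans k, fun k => h.trans k⟩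

theorem cyc_pos (x : V) : (0 : ℝ) < ((cyc g x).card : ℝ) := by
  have : x ∈ cyc g x := (mem_cyc g x x).2 (Perm.SameCycle.refl g x)
  exact_mod_cast Finset.card_pos.2 ⟨x, this⟩

/-- the sum over the cycle -/
noncomputable def S (u : V → ℝ) (x : V) : ℝ := ∑ y ∈ cyc g x, u y

theorem S_congr (u : V → ℝ) {x y : V} (h : g.SameCycle x y) : S g u x = S g u y := by
  unfold S
  rw [cyc_congr g h]

theorem key (T : Finset V) (hT : ∀ x y, g.SameCycle x y → x ∈ T → y ∈ T) (F u : V → ℝ)
    (hF : ∀ x y, g.SameCycle x y → F x = F y) :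
    ∑ x ∈ T, F x * S g u x / ((cyc g x).card : ℝ) = ∑ x ∈ T, F x * u x := by
  classical
  have h1 : ∀ x ∈ T, F x * S g u x / ((cyc g x).card : ℝ) =
      ∑ y ∈ T, if g.SameCycle x y then F x * u y / ((cyc g x).card : ℝ) else 0 := by
    intro x hx
    rw [← Finset.sum_filter]
    have : T.filter (fun y => g.SameCycle x y) = cyc g x := by
      ext y
      rw [mem_filter, mem_cyc]
      exact ⟨fun h => h.2, fun h => ⟨hT x y h hx, h⟩⟩
    rw [this, ← Finset.sum_div, ← Finset.mul_sum]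
    rfl
  rw [Finset.sum_congr rfl h1, Finset.sum_comm]
  refine Finset.sum_congr rfl fun y hy => ?_
  have h2 : ∀ x ∈ T, (if g.SameCycle x y then F x * u y / ((cyc g x).card : ℝ) else 0) =
      if g.SameCycle x y then F y * u y / ((cyc g y).card : ℝ) else 0 := by
    intro x _
    by_cases h : g.SameCycle x y
    · rw [if_pos h, if_pos h, hF x y h, cyc_congr g h]
    · rw [if_neg h, if_neg h]
  rw [Finset.sum_congr rfl h2, ← Finset.sum_filter, Finset.sum_const, nsmul_eq_mul]
  have : T.filter (fun x => g.SameCycle x y) = cyc g y := by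
    ext x
    rw [mem_filter, mem_cyc]
    exact ⟨fun h => h.2.symm, fun h => ⟨hT y x h hy, h.symm⟩⟩
  rw [this]
  have := cyc_pos g y
  field_simp

/-- the quadratic form -/
theorem form_eq (u : V → ℝ) (T : Finset V) (hT : ∀ x y, g.SameCycle x y → x ∈ T → y ∈ T) :
    ∑ x ∈ T, (S g u x) ^ 2 / ((cyc g x).card : ℝ) = ∑ x ∈ T, S g u x * u x := by
  rw [← key g T hT (S g u) u (fun x y h => S_congr g u h)]
  exact Finset.sum_congr rfl fun x _ => by rw [sq]

theorem S_abs_le (u : V → ℝ) (x : V) : |S g u x| ≤ ∑ y, |u y| := by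
  unfold S
  refine (Finset.abs_sum_le_sum_abs _ _).trans ?_
  exact Finset.sum_le_sum_of_subset_of_nonneg (Finset.subset_univ _) fun _ _ _ => abs_nonneg _

theorem form_le (u : V → ℝ) (c : ℝ) (hu : ∑ y, |u y| ≤ c) :
    ∑ x, (S g u x) ^ 2 / ((cyc g x).card : ℝ) ≤ c ^ 2 := by
  have h0 : 0 ≤ ∑ y, |u y| := Finset.sum_nonneg fun _ _ => abs_nonneg _
  rw [form_eq g u univ (fun _ _ _ _ => mem_univ _)]
  calc ∑ x, S g u x * u x ≤ ∑ x, c * |u x| := by
        refine Finset.sum_le_sum fun x _ => ?_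
        calc S g u x * u x ≤ |S g u x * u x| := le_abs_self _
          _ = |S g u x| * |u x| := abs_mul _ _
          _ ≤ c * |u x| := mul_le_mul_of_nonneg_right ((S_abs_le g u x).trans hu) (abs_nonneg _)
    _ = c * ∑ x, |u x| := by rw [Finset.mul_sum]
    _ ≤ c * c := mul_le_mul_of_nonneg_left hu (h0.trans hu)
    _ = c ^ 2 := by ring

theorem S_add (u v : V → ℝ) (x : V) : S g (fun y => u y + v y) x = S g u x + S g v x :=
  Finset.sum_add_distrib

theorem S_sub (u v : V → ℝ) (x : V) : S g (fun y => u y - v y) x = S g u x - S g v x :=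
  Finset.sum_sub_distrib _ _

theorem same_mem {A : Finset V} (hA : Inv g A) {x y : V} (h : g.SameCycle x y) (hx : x ∈ A) :
    y ∈ A := by
  obtain ⟨k, -, hk⟩ := h.exists_pow_eq'
  rw [← hk]
  clear hk
  induction k with
  | zero => simpa using hx
  | succ k ih =>
    rw [pow_succ', Perm.mul_apply]
    exact hA _ ih

theorem same_eq (u v : V → ℝ) : (∑ x, ∑ y, if g.SameCycle x y then u x * v y else 0) =
    ∑ x, u x * S g v x := by
  classical
  refine Finset.sum_congr rfl fun x _ => ?_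
  rw [← Finset.sum_filter, ← Finset.mul_sum]
  unfold S cyc
  congr 1

theorem S_symm (u v : V → ℝ) : ∑ x, u x * S g v x = ∑ x, v x * S g u x := by
  classical
  rw [← same_eq, ← same_eq, Finset.sum_comm]
  refine Finset.sum_congr rfl fun x _ => Finset.sum_congr rfl fun y _ => ?_
  by_cases h : g.SameCycle x y
  · rw [if_pos h, if_pos h.symm, mul_comm]
  · rw [if_neg h, if_neg fun k => h k.symm]

end gen

section torus

variable {d L : ℕ} [NeZero L]

theorem card_val {r : ℕ} (hr : r ≤ L) :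
    ((univ : Finset (ZMod L)).filter fun a => a.val < r).card = r := by
  have h : ((univ : Finset (ZMod L)).filter fun a => a.val < r).image ZMod.val = range r := by
    ext k
    simp only [mem_image, mem_filter, mem_univ, true_and, mem_range]
    constructor
    · rintro ⟨a, ha, rfl⟩
      exact ha
    · intro hk
      refine ⟨(k : ZMod L), ?_, ZMod.val_natCast_of_lt (hk.trans_le hr)⟩
      rw [ZMod.val_natCast_of_lt (hk.trans_le hr)]
      exact hk
  have h2 := Finset.card_image_of_injective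
    ((univ : Finset (ZMod L)).filter fun a => a.val < r) (ZMod.val_injective L)
  rw [h, card_range] at h2
  exact h2.symm

theorem card_pi_val {r : ℕ} (hr : r ≤ L) :
    ((univ : Finset (Fin d → ZMod L)).filter fun x => ∀ i, (x i).val < r).card = r ^ d := by
  have h : ((univ : Finset (Fin d → ZMod L)).filter fun x => ∀ i, (x i).val < r) =
      Fintype.piFinset fun _ : Fin d => (univ : Finset (ZMod L)).filter fun a => a.val < r := by
    ext x
    simp [Fintype.mem_piFinset]
  rw [h, Fintype.card_piFinset]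
  simp [card_val hr]

theorem card_box {r : ℕ} (hr : r ≤ L) (z : Fin d → ZMod L) : (Q292.LC.box z r).card = r ^ d := by
  rw [← card_pi_val (d := d) hr]
  refine Finset.card_bij (fun x _ => x - z) ?_ ?_ ?_
  · intro x hx
    simpa [Q292.LC.box] using hx
  · intro x _ y _ h
    exact sub_left_injective h
  · intro y hy
    refine ⟨y + z, ?_, by simp⟩
    simpa [Q292.LC.box] using hy

theorem card_box' {r : ℕ} (hr : r ≤ L) (x : Fin d → ZMod L) :
    ((univ : Finset (Fin d → ZMod L)).filter fun z => x ∈ Q292.LC.box z r).card = r ^ d := by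
  rw [← card_pi_val (d := d) hr]
  refine Finset.card_bij (fun z _ => x - z) ?_ ?_ ?_
  · intro z hz
    simpa [Q292.LC.box] using hz
  · intro z _ z' _ h
    exact sub_right_injective h
  · intro y hy
    refine ⟨x - y, ?_, by simp⟩
    simpa [Q292.LC.box] using hy

/-- the uniform distribution on the box -/
noncomputable def av (r : ℕ) (z x : Fin d → ZMod L) : ℝ :=
  if x ∈ Q292.LC.box z r then 1 / (r : ℝ) ^ d else 0

theorem av_nonneg (r : ℕ) (z x : Fin d → ZMod L) : 0 ≤ av r z x := by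
  unfold av
  split_ifs
  · positivity
  · exact le_refl _

theorem sum_av {r : ℕ} (h1 : 1 ≤ r) (hr : r ≤ L) (z : Fin d → ZMod L) : ∑ x, av r z x = 1 := by
  unfold av
  rw [← Finset.sum_filter, Finset.filter_mem_eq_inter, Finset.univ_inter, Finset.sum_const,
    card_box hr, nsmul_eq_mul]
  have : (0 : ℝ) < (r : ℝ) ^ d := by
    have : (0 : ℝ) < r := by exact_mod_cast h1
    positivity
  push_cast
  field_simp

theorem sum_av' {r : ℕ} (h1 : 1 ≤ r) (hr : r ≤ L) (x : Fin d → ZMod L) : ∑ z, av r z x = 1 := by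
  unfold av
  rw [← Finset.sum_filter, Finset.sum_const, card_box' hr, nsmul_eq_mul]
  have : (0 : ℝ) < (r : ℝ) ^ d := by
    have : (0 : ℝ) < r := by exact_mod_cast h1
    positivity
  push_cast
  field_simp

/-- the difference of the uniform distributions on the box and on the box minus `Dm` -/
theorem abs_b {r : ℕ} (h1 : 1 ≤ r) (hr : r ≤ L) (Dm : Finset (Fin d → ZMod L)) (η : ℝ)
    (hη : η ≤ 1 / 2) (z : Fin d → ZMod L)
    (hD : ((Dm ∩ Q292.LC.box z r).card : ℝ) ≤ η * (r : ℝ) ^ d) :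
    ∑ x, |av r z x - chi r Dm z x| ≤ 2 * η := by
  have hr0 : (0 : ℝ) < (r : ℝ) ^ d := by
    have : (0 : ℝ) < r := by exact_mod_cast h1
    positivity
  set k : ℝ := ((Dm ∩ Q292.LC.box z r).card : ℝ) with hk
  have hcard : ((Q292.LC.box z r \ Dm).card : ℝ) = (r : ℝ) ^ d - k := by
    have h2 : (Q292.LC.box z r \ Dm).card + (Dm ∩ Q292.LC.box z r).card =
        (Q292.LC.box z r).card := by
      rw [Finset.inter_comm]
      exact Finset.card_sdiff_add_card_inter _ _
    rw [card_box hr] at h2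
    have h3 : ((Q292.LC.box z r \ Dm).card : ℝ) + k = (r : ℝ) ^ d := by
      rw [hk]
      exact_mod_cast h2
    linarith
  have hk0 : 0 ≤ k := Nat.cast_nonneg _
  have hk1 : k ≤ (r : ℝ) ^ d / 2 := by nlinarith
  have hm : 0 < (r : ℝ) ^ d - k := by linarith
  have h4 : ∀ x, |av r z x - chi r Dm z x| =
      (if x ∈ Q292.LC.box z r \ Dm then 1 / ((r : ℝ) ^ d - k) - 1 / (r : ℝ) ^ d else 0) +
      (if x ∈ Dm ∩ Q292.LC.box z r then 1 / (r : ℝ) ^ d else 0) := by
    intro x
    have h5 : 1 / (r : ℝ) ^ d ≤ 1 / ((r : ℝ) ^ d - k) :=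
      one_div_le_one_div_of_le hm (by linarith)
    unfold av chi
    rw [hcard]
    by_cases hx : x ∈ Q292.LC.box z r
    · by_cases hx' : x ∈ Dm
      · rw [if_pos hx, if_neg (by simp [hx']), if_neg (by simp [hx']),
          if_pos (mem_inter.2 ⟨hx', hx⟩), sub_zero, zero_add, abs_of_nonneg (by positivity)]
      · rw [if_pos hx, if_pos (mem_sdiff.2 ⟨hx, hx'⟩), if_pos (mem_sdiff.2 ⟨hx, hx'⟩),
          if_neg (by simp [hx']), add_zero, abs_of_nonpos (by linarith)]
        ring
    · rw [if_neg hx, if_neg (by simp [hx]), if_neg (by simp [hx]), if_neg (by simp [hx])]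
      simp
  rw [Finset.sum_congr rfl fun x _ => h4 x, Finset.sum_add_distrib, ← Finset.sum_filter,
    ← Finset.sum_filter, Finset.filter_mem_eq_inter, Finset.filter_mem_eq_inter,
    Finset.univ_inter, Finset.univ_inter, Finset.sum_const, Finset.sum_const, nsmul_eq_mul,
    nsmul_eq_mul, hcard, ← hk]
  have h6 : ((r : ℝ) ^ d - k) * (1 / ((r : ℝ) ^ d - k) - 1 / (r : ℝ) ^ d) + k * (1 / (r : ℝ) ^ d) =
      2 * (k / (r : ℝ) ^ d) := by
    field_simp
    ring
  rw [h6]
  have : k / (r : ℝ) ^ d ≤ η := by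
    rw [div_le_iff₀ hr0]
    exact hD
  linarith

theorem card_V : (Fintype.card (Fin d → ZMod L) : ℝ) = (L : ℝ) ^ d := by
  rw [Fintype.card_fun, ZMod.card, Fintype.card_fin]
  push_cast
  rfl

open Classical in
theorem Qb_eq {r : ℕ} (h1 : 1 ≤ r) (g : Perm (Fin d → ZMod L)) :
    Qb r g = (∑ z, ∑ x, av r z x * S g (av r z) x) / (L : ℝ) ^ d := by
  have hr0 : (0 : ℝ) < (r : ℝ) ^ d := by
    have : (0 : ℝ) < r := by exact_mod_cast h1
    positivity
  have h2 : ∀ z : Fin d → ZMod L, (∑ x ∈ Q292.LC.box z r, ∑ y ∈ Q292.LC.box z r,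
      if g.SameCycle x y then (1 : ℝ) else 0) = (r : ℝ) ^ (2 * d) *
      ∑ x, av r z x * S g (av r z) x := by
    intro z
    rw [← same_eq, Finset.mul_sum]
    have h3 : ∀ x, ((r : ℝ) ^ (2 * d) *
        ∑ y, if g.SameCycle x y then av r z x * av r z y else 0) =
        if x ∈ Q292.LC.box z r then (∑ y ∈ Q292.LC.box z r,
          if g.SameCycle x y then (1 : ℝ) else 0) else 0 := by
      intro x
      by_cases hx : x ∈ Q292.LC.box z r
      · rw [if_pos hx, Finset.mul_sum]
        have h4 : (∑ y ∈ Q292.LC.box z r, if g.SameCycle x y then (1 : ℝ) else 0) =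
            ∑ y, if y ∈ Q292.LC.box z r then (if g.SameCycle x y then (1 : ℝ) else 0) else 0 := by
          rw [Finset.sum_ite_mem, Finset.univ_inter]
        rw [h4]
        refine Finset.sum_congr rfl fun y _ => ?_
        unfold av
        by_cases hy : y ∈ Q292.LC.box z r
        · by_cases hs : g.SameCycle x y
          · rw [if_pos hs, if_pos hx, if_pos hy, if_pos hy, if_pos hs, two_mul, pow_add]
            field_simp
          · rw [if_neg hs, if_pos hy, if_neg hs, mul_zero]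
        · rw [if_neg hy, if_neg hy, mul_zero]
          simp
      · rw [if_neg hx]
        unfold av
        simp [hx]
    rw [Finset.sum_congr rfl fun x _ => h3 x, ← Finset.sum_filter, Finset.filter_mem_eq_inter,
      Finset.univ_inter]
  unfold Qb
  rw [Finset.sum_congr rfl fun z _ => h2 z, ← Finset.mul_sum]
  rw [mul_comm ((L : ℝ) ^ d), mul_div_mul_left _ _ (by positivity)]

open Classical in
theorem Qv_eq (g : Perm (Fin d → ZMod L)) :
    Qv g = ∑ x, (1 / (L : ℝ) ^ d) * S g (fun _ => 1 / (L : ℝ) ^ d) x := by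
  have hL : (0 : ℝ) < (L : ℝ) ^ d := by
    have : (0 : ℝ) < L := by exact_mod_cast Nat.pos_of_ne_zero (NeZero.ne L)
    positivity
  rw [← same_eq]
  unfold Qv
  rw [Finset.sum_div]
  refine Finset.sum_congr rfl fun x _ => ?_
  rw [Finset.sum_div]
  refine Finset.sum_congr rfl fun y _ => ?_
  by_cases hs : g.SameCycle x y
  · rw [if_pos hs, if_pos hs, two_mul, pow_add]
    field_simp
  · simp [hs]

/-- the averaged difference -/
theorem Q_diff {r : ℕ} (h1 : 1 ≤ r) (hr : r ≤ L) (g : Perm (Fin d → ZMod L)) :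
    Qb r g = Qv g + (∑ z, ∑ x, (S g (fun x => av r z x - 1 / (L : ℝ) ^ d) x) ^ 2 /
      ((cyc g x).card : ℝ)) / (L : ℝ) ^ d := by
  have hL : (0 : ℝ) < (L : ℝ) ^ d := by
    have : (0 : ℝ) < L := by exact_mod_cast Nat.pos_of_ne_zero (NeZero.ne L)
    positivity
  set c : (Fin d → ZMod L) → ℝ := fun _ => 1 / (L : ℝ) ^ d with hc
  have h2 : ∀ z : Fin d → ZMod L, ∑ x, (S g (fun x => av r z x - 1 / (L : ℝ) ^ d) x) ^ 2 /
      ((cyc g x).card : ℝ) = ∑ x, av r z x * S g (av r z) x - 2 * ∑ x, av r z x * S g c x +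
        ∑ x, c x * S g c x := by
    intro z
    rw [form_eq g _ univ (fun _ _ _ _ => mem_univ _)]
    have h3 : ∀ x, S g (fun x => av r z x - 1 / (L : ℝ) ^ d) x * (av r z x - 1 / (L : ℝ) ^ d) =
        av r z x * S g (av r z) x - av r z x * S g c x - c x * S g (av r z) x + c x * S g c x := by
      intro x
      have : S g (fun x => av r z x - 1 / (L : ℝ) ^ d) x = S g (av r z) x - S g c x :=
        S_sub g (av r z) c x
      rw [this, hc]
      ring
    rw [Finset.sum_congr rfl fun x _ => h3 x, Finset.sum_add_distrib, Finset.sum_sub_distrib,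
      Finset.sum_sub_distrib, S_symm g c (av r z)]
    ring
  have h4 : ∑ z : Fin d → ZMod L, ∑ x, av r z x * S g c x = ∑ x, S g c x := by
    rw [Finset.sum_comm]
    refine Finset.sum_congr rfl fun x _ => ?_
    rw [← Finset.sum_mul, sum_av' h1 hr, one_mul]
  have h5 : ∑ x, c x * S g c x = (∑ x, S g c x) / (L : ℝ) ^ d := by
    rw [Finset.sum_div]
    refine Finset.sum_congr rfl fun x _ => ?_
    rw [hc]
    ring
  have h6 : Qv g = (∑ x, S g c x) / (L : ℝ) ^ d := by
    rw [Qv_eq, ← h5]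
  rw [Finset.sum_congr rfl fun z _ => h2 z, Finset.sum_add_distrib, Finset.sum_sub_distrib,
    ← Finset.mul_sum, h4, h6, h5, Finset.sum_const, Finset.card_univ, nsmul_eq_mul, card_V,
    Qb_eq h1 g]
  field_simp
  ring

theorem part_A {r : ℕ} (h1 : 1 ≤ r) (hr : r ≤ L) (g : Perm (Fin d → ZMod L))
    (A : Finset (Fin d → ZMod L)) (hA : Inv g A) :
    (∑ z, ∑ x ∈ A, (S g (fun x => av r z x - 1 / (L : ℝ) ^ d) x) ^ 2 /
      ((cyc g x).card : ℝ)) / (L : ℝ) ^ d ≤ 2 * A.card / (L : ℝ) ^ d := by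
  have hL : (0 : ℝ) < (L : ℝ) ^ d := by
    have : (0 : ℝ) < L := by exact_mod_cast Nat.pos_of_ne_zero (NeZero.ne L)
    positivity
  set c : (Fin d → ZMod L) → ℝ := fun _ => 1 / (L : ℝ) ^ d with hc
  have hT : ∀ x y, g.SameCycle x y → x ∈ A → y ∈ A := fun x y h hx => same_mem g hA h hx
  have hc1 : ∀ x, S g c x ≤ 1 := by
    intro x
    calc S g c x ≤ ∑ y, c y := by
          refine Finset.sum_le_sum_of_subset_of_nonneg (Finset.subset_univ _) fun _ _ _ => ?_
          rw [hc]
          positivity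
      _ = 1 := by
          rw [hc, Finset.sum_const, Finset.card_univ, nsmul_eq_mul, card_V]
          field_simp
  have hc0 : ∀ x, 0 ≤ S g c x := fun x => Finset.sum_nonneg fun _ _ => by
    rw [hc]
    positivity
  have ha1 : ∀ z x, S g (av r z) x ≤ 1 := by
    intro z x
    calc S g (av r z) x ≤ ∑ y, av r z y :=
          Finset.sum_le_sum_of_subset_of_nonneg (Finset.subset_univ _) fun y _ _ => av_nonneg r z y
      _ = 1 := sum_av h1 hr z
  have ha0 : ∀ z x, 0 ≤ S g (av r z) x := fun z x => Finset.sum_nonneg fun y _ => av_nonneg r z y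
  have h2 : ∀ z : Fin d → ZMod L, ∑ x ∈ A, (S g (fun x => av r z x - 1 / (L : ℝ) ^ d) x) ^ 2 /
      ((cyc g x).card : ℝ) ≤ ∑ x ∈ A, (av r z x + c x) := by
    intro z
    have h3 : ∑ x ∈ A, (av r z x + c x) =
        ∑ x ∈ A, 1 * S g (fun x => av r z x + c x) x / ((cyc g x).card : ℝ) := by
      rw [key g A hT (fun _ => 1) _ (fun _ _ _ => rfl)]
      simp
    rw [h3]
    refine Finset.sum_le_sum fun x _ => ?_
    refine div_le_div_of_nonneg_right ?_ (cyc_pos g x).le
    have h4 : S g (fun x => av r z x - 1 / (L : ℝ) ^ d) x = S g (av r z) x - S g c x :=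
      S_sub g (av r z) c x
    rw [h4, S_add g (av r z) c x]
    have h5 := ha1 z x
    have h6 := ha0 z x
    have h7 := hc1 x
    have h8 := hc0 x
    nlinarith
  refine div_le_div_of_nonneg_right ?_ hL.le
  refine (Finset.sum_le_sum fun z _ => h2 z).trans (le_of_eq ?_)
  rw [Finset.sum_comm]
  have h9 : ∀ x ∈ A, ∑ z : Fin d → ZMod L, (av r z x + c x) = 2 := by
    intro x _
    rw [Finset.sum_add_distrib, sum_av' h1 hr, hc, Finset.sum_const, Finset.card_univ,
      nsmul_eq_mul, card_V]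
    field_simp
    norm_num
  rw [Finset.sum_congr rfl h9, Finset.sum_const, nsmul_eq_mul]
  ring

theorem part_B {r : ℕ} (h1 : 1 ≤ r) (hr : r ≤ L) (g : Perm (Fin d → ZMod L))
    (A Dm : Finset (Fin d → ZMod L)) (η : ℝ) (hη0 : 0 ≤ η) (hη : η ≤ 1 / 2)
    (hD : ∀ v, ((Dm ∩ Q292.LC.box v r).card : ℝ) ≤ η * (r : ℝ) ^ d) :
    (∑ z, ∑ x ∈ univ \ A, (S g (fun x => av r z x - 1 / (L : ℝ) ^ d) x) ^ 2 /
      ((cyc g x).card : ℝ)) / (L : ℝ) ^ d ≤ 3 * ∑ z, ∑ x ∈ univ \ A,
    ((∑ y ∈ cyc g x, phz r Dm z y) / ((cyc g x).card : ℝ)) ^ 2 + 24 * η ^ 2 := by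
  have hL : (0 : ℝ) < (L : ℝ) ^ d := by
    have : (0 : ℝ) < L := by exact_mod_cast Nat.pos_of_ne_zero (NeZero.ne L)
    positivity
  set b : (Fin d → ZMod L) → (Fin d → ZMod L) → ℝ := fun z x => av r z x - chi r Dm z x with hb
  set bb : (Fin d → ZMod L) → ℝ := fun x => (∑ z, b z x) / (L : ℝ) ^ d with hbb
  have hb1 : ∀ z, ∑ x, |b z x| ≤ 2 * η := fun z => abs_b h1 hr Dm η hη z (hD z)
  have hbb1 : ∑ x, |bb x| ≤ 2 * η := by
    have h2 : ∀ x, |bb x| ≤ (∑ z, |b z x|) / (L : ℝ) ^ d := by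
      intro x
      rw [hbb]
      simp only
      rw [abs_div, abs_of_pos hL]
      exact div_le_div_of_nonneg_right (Finset.abs_sum_le_sum_abs _ _) hL.le
    refine (Finset.sum_le_sum fun x _ => h2 x).trans ?_
    rw [← Finset.sum_div, Finset.sum_comm, div_le_iff₀ hL]
    refine (Finset.sum_le_sum fun z _ => hb1 z).trans (le_of_eq ?_)
    rw [Finset.sum_const, Finset.card_univ, nsmul_eq_mul, card_V]
    ring
  have h3 : ∀ z x, av r z x - 1 / (L : ℝ) ^ d = phz r Dm z x + b z x - bb x := by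
    intro z x
    have h4 : 1 / (L : ℝ) ^ d = (∑ z' : Fin d → ZMod L, av r z' x) / (L : ℝ) ^ d := by
      rw [sum_av' h1 hr]
    rw [h4, hbb, hb]
    simp only
    unfold phz
    rw [Finset.sum_sub_distrib]
    ring
  have h5 : ∀ z : Fin d → ZMod L, ∑ x ∈ univ \ A,
      (S g (fun x => av r z x - 1 / (L : ℝ) ^ d) x) ^ 2 / ((cyc g x).card : ℝ) ≤
      (L : ℝ) ^ d * (3 * ∑ x ∈ univ \ A,
        ((∑ y ∈ cyc g x, phz r Dm z y) / ((cyc g x).card : ℝ)) ^ 2) + 24 * η ^ 2 := by
    intro z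
    have h6 : ∀ x, (S g (fun x => av r z x - 1 / (L : ℝ) ^ d) x) ^ 2 / ((cyc g x).card : ℝ) ≤
        (L : ℝ) ^ d * (3 * ((∑ y ∈ cyc g x, phz r Dm z y) / ((cyc g x).card : ℝ)) ^ 2) +
        (3 * ((S g (b z) x) ^ 2 / ((cyc g x).card : ℝ)) +
          3 * ((S g bb x) ^ 2 / ((cyc g x).card : ℝ))) := by
      intro x
      have h7 : S g (fun x => av r z x - 1 / (L : ℝ) ^ d) x =
          S g (phz r Dm z) x + S g (b z) x - S g bb x := by
        have h8 : (fun x => av r z x - 1 / (L : ℝ) ^ d) =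
            fun x => (phz r Dm z x + b z x) - bb x := funext fun x => h3 z x
        rw [h8, S_sub g (fun x => phz r Dm z x + b z x) bb x, S_add g (phz r Dm z) (b z) x]
      have h9 := cyc_pos g x
      have h10 : ((cyc g x).card : ℝ) ≤ (L : ℝ) ^ d := by
        rw [← card_V]
        exact_mod_cast Finset.card_le_univ _
      have h11 : (∑ y ∈ cyc g x, phz r Dm z y) = S g (phz r Dm z) x := rfl
      rw [h7, h11]
      set p := S g (phz r Dm z) x
      set q := S g (b z) x
      set s := S g bb x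
      set C : ℝ := ((cyc g x).card : ℝ)
      have h12 : (p + q - s) ^ 2 ≤ 3 * p ^ 2 + 3 * q ^ 2 + 3 * s ^ 2 := by
        nlinarith [sq_nonneg (p - q), sq_nonneg (p + s), sq_nonneg (q + s)]
      have h13 : (p + q - s) ^ 2 / C ≤ (3 * p ^ 2 + 3 * q ^ 2 + 3 * s ^ 2) / C :=
        div_le_div_of_nonneg_right h12 h9.le
      have h14 : 3 * p ^ 2 / C ≤ (L : ℝ) ^ d * (3 * (p / C) ^ 2) := by
        have : 3 * p ^ 2 / C = C * (3 * (p / C) ^ 2) := by
          field_simp
        rw [this]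
        exact mul_le_mul_of_nonneg_right h10 (by positivity)
      calc (p + q - s) ^ 2 / C ≤ (3 * p ^ 2 + 3 * q ^ 2 + 3 * s ^ 2) / C := h13
        _ = 3 * p ^ 2 / C + (3 * (q ^ 2 / C) + 3 * (s ^ 2 / C)) := by ring
        _ ≤ _ := by linarith
    refine (Finset.sum_le_sum fun x _ => h6 x).trans ?_
    rw [Finset.sum_add_distrib, ← Finset.mul_sum, ← Finset.mul_sum]
    refine add_le_add (le_refl _) ?_
    have h15 : ∑ x ∈ univ \ A, (3 * ((S g (b z) x) ^ 2 / ((cyc g x).card : ℝ)) +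
          3 * ((S g bb x) ^ 2 / ((cyc g x).card : ℝ))) ≤
        ∑ x, (3 * ((S g (b z) x) ^ 2 / ((cyc g x).card : ℝ)) +
          3 * ((S g bb x) ^ 2 / ((cyc g x).card : ℝ))) := by
      refine Finset.sum_le_sum_of_subset_of_nonneg (Finset.subset_univ _) fun x _ _ => ?_
      have := cyc_pos g x
      positivity
    refine h15.trans ?_
    rw [Finset.sum_add_distrib, ← Finset.mul_sum, ← Finset.mul_sum]
    have h16 := form_le g (b z) (2 * η) (hb1 z)
    have h17 := form_le g bb (2 * η) hbb1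
    nlinarith
  rw [div_le_iff₀ hL]
  refine (Finset.sum_le_sum fun z _ => h5 z).trans (le_of_eq ?_)
  rw [Finset.sum_add_distrib, ← Finset.mul_sum, ← Finset.mul_sum, Finset.sum_const,
    Finset.card_univ, nsmul_eq_mul, card_V]
  ring

theorem t_DVA : S_DVA := by
  intro d L _ hd g A Dm r η h1 hr hA hAD hη0 hη hD
  rw [Q_diff h1 hr g]
  have h2 : ∀ z : Fin d → ZMod L, ∑ x, (S g (fun x => av r z x - 1 / (L : ℝ) ^ d) x) ^ 2 /
      ((cyc g x).card : ℝ) = ∑ x ∈ univ \ A, (S g (fun x => av r z x - 1 / (L : ℝ) ^ d) x) ^ 2 /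
      ((cyc g x).card : ℝ) + ∑ x ∈ A, (S g (fun x => av r z x - 1 / (L : ℝ) ^ d) x) ^ 2 /
      ((cyc g x).card : ℝ) := by
    intro z
    exact (Finset.sum_sdiff (Finset.subset_univ A)).symm
  rw [Finset.sum_congr rfl fun z _ => h2 z, Finset.sum_add_distrib, add_div]
  have h3 := part_A h1 hr g A hA
  have h4 := part_B h1 hr g A Dm η hη0 hη hD
  linarith

end torus

end Pool.Agent.Run7.h992.LC
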